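import Pool.Agent.Helper66_D1.Stmts
import Pool.Agent.Helper9_BN.Ch
import Pool.Agent.Helper96_PP.Trn
import Pool.Agent.Helper65_PP.Sup

/-!
# Squad PP, part D1, module CHD: the alternating sum has two terms
-/

open scoped BigOperators

noncomputable section

namespace Pool.Agent.PP.D1.H90

open Pool.Agent.Helper51_AWC Pool.Agent.Helper79_WRA Pool.Agent.PP Pool.Agent.PP.BN.H9

section group

variable {G : Type} [Group G] [Finite G]

theorem bot_or_eq {ℓ : ℕ} (hℓ : ℓ.Prime) {V : Subgroup G} (hV : Nat.card V = ℓ) {D : Subgroup G}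
    (hD : D ≤ V) : D = ⊥ ∨ D = V := by
  have h1 : Nat.card D ∣ ℓ := hV ▸ Subgroup.card_dvd_of_le hD
  rcases (Nat.dvd_prime hℓ).1 h1 with h | h
  · left
    exact Subgroup.card_eq_one.1 h
  · right
    exact Subgroup.eq_of_le_of_card_ge hD (by rw [hV, h])

theorem card_conjS (g : G) (P : Subgroup G) : Nat.card (conjS g P) = Nat.card P :=
  (Nat.card_congr (conjSEquiv g P).toEquiv).symm

theorem isPGroup_of_card {ℓ : ℕ} {V : Subgroup G} (hV : Nat.card V = ℓ) : IsPGroup ℓ V :=
  IsPGroup.of_card (n := 1) (by rw [hV, pow_one])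

theorem stab_bot : stab ({⊥} : Finset (Subgroup G)) = ⊤ := by
  rw [eq_top_iff]
  intro x _
  rw [mem_stab]
  intro W hW
  rw [Finset.mem_singleton.1 hW, conjS, Subgroup.map_bot]

open Classical in
theorem stab_pair (V : Subgroup G) : stab ({⊥, V} : Finset (Subgroup G)) =
    Subgroup.normalizer (V : Set G) := by
  ext x
  rw [mem_stab, mem_normalizer_iff_conjS]
  constructor
  · intro h
    exact h V (Finset.mem_insert_of_mem (Finset.mem_singleton_self _))
  · intro h W hW
    rcases Finset.mem_insert.1 hW with rfl | h'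
    · rw [conjS, Subgroup.map_bot]
    · rw [Finset.mem_singleton.1 h']
      exact h

open Classical in
theorem top_pair (V : Subgroup G) : top ({⊥, V} : Finset (Subgroup G)) = V := by
  unfold top
  rw [Finset.coe_insert, Finset.coe_singleton, sSup_insert, sSup_singleton, bot_sup_eq]

open Classical in
theorem top_single : top ({⊥} : Finset (Subgroup G)) = ⊥ := by
  unfold top
  rw [Finset.coe_singleton, sSup_singleton]

open Classical in
theorem pair_mem {ℓ : ℕ} {N V : Subgroup G} (hV : V ≤ N) (hp : IsPGroup ℓ V) :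
    ({⊥, V} : Finset (Subgroup G)) ∈ (chainsOn (psubIn ℓ N) ⊥).filter NormalChain := by
  rw [Finset.mem_filter, mem_chainsOn]
  refine ⟨⟨?_, Finset.mem_insert_self _ _, ?_⟩, ?_⟩
  · intro W hW
    rw [H75.mem_psubIn']
    rcases Finset.mem_insert.1 hW with rfl | h
    · exact ⟨bot_le, IsPGroup.of_bot⟩
    · rw [Finset.mem_singleton.1 h]
      exact ⟨hV, hp⟩
  · intro x hx y hy hxy
    rw [Finset.mem_coe, Finset.mem_insert, Finset.mem_singleton] at hx hy
    rcases hx with rfl | rfl
    · left; exact bot_le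
    · rcases hy with rfl | rfl
      · right; exact bot_le
      · exact absurd rfl hxy
  · intro D hD
    rw [top_pair]
    rcases Finset.mem_insert.1 hD with rfl | h
    · intro x _
      rw [mem_normalizer_iff_conjS, conjS, Subgroup.map_bot]
    · rw [Finset.mem_singleton.1 h]
      exact Subgroup.le_normalizer

open Classical in
theorem single_mem {ℓ : ℕ} {N : Subgroup G} :
    ({⊥} : Finset (Subgroup G)) ∈ (chainsOn (psubIn ℓ N) ⊥).filter NormalChain := by
  rw [Finset.mem_filter, mem_chainsOn]
  refine ⟨⟨?_, Finset.mem_singleton_self _, ?_⟩, ?_⟩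
  · intro W hW
    rw [H75.mem_psubIn', Finset.mem_singleton.1 hW]
    exact ⟨bot_le, IsPGroup.of_bot⟩
  · intro x hx y hy hxy
    rw [Finset.mem_coe, Finset.mem_singleton] at hx hy
    exact absurd (hx.trans hy.symm) hxy
  · intro D _
    rw [top_single]
    exact bot_le

open Classical in
/-- a chain with top `V` of prime order -/
theorem eq_pair {ℓ : ℕ} (hℓ : ℓ.Prime) {d : Finset (Subgroup G)} {V : Subgroup G}
    (hV : Nat.card V = ℓ) (hb : ⊥ ∈ d) (ht : V ∈ d) (hle : ∀ D ∈ d, D ≤ V) : d = {⊥, V} := by
  ext W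
  rw [Finset.mem_insert, Finset.mem_singleton]
  constructor
  · intro hW
    exact bot_or_eq hℓ hV (hle W hW)
  · rintro (rfl | rfl)
    · exact hb
    · exact ht

end group

open Classical in
/-- CHD -/
theorem chd (hNch : NchStmt) (hNls : NlsStmt) (hBrm : BrmStmt) : ChdStmt := by
  intro ℓ _ F _ hF G _ _ N P b hD hU e he heb
  have := Fintype.ofFinite G
  have hℓ : ℓ.Prime := hF.prime
  have hPp : IsPGroup ℓ P := isPGroup_of_card hD.card
  have hP0 : P ≠ ⊥ := by
    intro h
    have h1 := hD.card
    rw [h, Subgroup.card_bot] at h1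
    exact hℓ.one_lt.ne h1
  have hcN : ∀ g : G, conjS g P ≤ N := by
    intro g x hx
    rw [mem_conjS] at hx
    have h1 := hD.normal.conj_mem _ (hD.le hx) g
    have h2 : g * (g⁻¹ * x * g) * g⁻¹ = x := by group
    rwa [h2] at h1
  have hcc : ∀ g : G, Nat.card (conjS g P) = ℓ := fun g => by rw [card_conjS, hD.card]
  -- normal chains
  have hYY : YY ℓ N e = ∑ d ∈ (chainsOn (psubIn ℓ N) ⊥).filter NormalChain,
      (-1) ^ (d.card + 1) * ((Nat.card (stab d) : ℤ) * (lnum (stab d) e : ℤ)) :=
    hNch ℓ G N (fun S _ => (Nat.card S : ℤ) * (lnum S e : ℤ))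
  -- the conjugates of `P`
  obtain ⟨C, hC⟩ : ∃ C : Finset (Subgroup G), C = Finset.univ.image fun g : G => conjS g P :=
    ⟨_, rfl⟩
  -- the other chains
  have hkill : ∀ d ∈ (chainsOn (psubIn ℓ N) ⊥).filter NormalChain,
      d ∉ insert ({⊥} : Finset (Subgroup G)) (C.image fun V => {⊥, V}) →
      (-1 : ℤ) ^ (d.card + 1) * ((Nat.card (stab d) : ℤ) * (lnum (stab d) e : ℤ)) = 0 := by
    intro d hd hdn
    rw [Finset.mem_filter, mem_chainsOn] at hd
    obtain ⟨⟨h1, h2, h3⟩, h4⟩ := hd
    obtain ⟨t1, t2⟩ := H94.top_mem h3 ⟨_, h2⟩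
    obtain ⟨tN, tp⟩ := H75.mem_psubIn'.1 (h1 t1)
    have hbr : br (top d) b = 0 := by
      by_contra hne
      rcases hU (top d) tN tp hne with h | ⟨g, hg⟩
      · apply hdn
        rw [Finset.mem_insert]
        left
        ext W
        rw [Finset.mem_singleton]
        constructor
        · intro hW
          have := t2 W hW
          rw [h, le_bot_iff] at this
          exact this
        · rintro rfl
          exact h2
      · apply hdn
        rw [Finset.mem_insert]
        right
        rw [Finset.mem_image]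
        refine ⟨top d, ?_, ?_⟩
        · rw [hC, Finset.mem_image]
          exact ⟨g, Finset.mem_univ _, hg.symm⟩
        · exact (eq_pair hℓ (by rw [hg, hcc]) h2 t1 t2).symm
    have hbe : br (top d) e = 0 := by
      have h5 := (hBrm ℓ F hF G (top d) (Subgroup.centralizer ((top d : Subgroup G) : Set G)) tp
        le_rfl (Subgroup.centralizer_le_normalizer _)).1 e b he.1 hD.idem.1
      rw [heb, hbr] at h5
      rw [h5]
      funext x
      unfold mulF
      simp
    have hX1 : top d ≤ stab d := by
      intro x hx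
      rw [mem_stab]
      intro D hDd
      exact mem_normalizer_iff_conjS.1 (h4 D hDd hx)
    have hX2 : stab d ≤ Subgroup.normalizer ((top d : Subgroup G) : Set G) := by
      intro x hx
      rw [mem_normalizer_iff_conjS]
      exact mem_stab.1 hx _ t1
    rw [H65.kill hNls hF he.1 hX1 hX2 tp]
    · simp
    · intro g _ hg
      have h6 := congrFun hbe g
      unfold br at h6
      rw [if_pos hg] at h6
      exact h6
  have hsub : insert ({⊥} : Finset (Subgroup G)) (C.image fun V => {⊥, V}) ⊆
      (chainsOn (psubIn ℓ N) ⊥).filter NormalChain := by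
    intro d hd
    rw [Finset.mem_insert, Finset.mem_image] at hd
    rcases hd with rfl | ⟨V, hV, rfl⟩
    · exact single_mem
    · rw [hC] at hV
      obtain ⟨g, -, rfl⟩ := Finset.mem_image.1 hV
      exact pair_mem (hcN g) (isPGroup_of_card (hcc g))
  rw [hYY, ← Finset.sum_subset hsub hkill]
  -- values
  have hf0 : (-1 : ℤ) ^ (({⊥} : Finset (Subgroup G)).card + 1) *
      ((Nat.card (stab ({⊥} : Finset (Subgroup G))) : ℤ) *
        (lnum (stab ({⊥} : Finset (Subgroup G))) e : ℤ)) = (Nat.card G : ℤ) *
      ({f : G → F | f ∈ IBr F G ∧ actF e f = f}.ncard : ℤ) := by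
    have h1 : lnum (⊤ : Subgroup G) e = {f : G → F | f ∈ IBr F G ∧ actF e f = f}.ncard := by
      rw [H75.lnum_eq]
      exact H75.cnt_equiv Subgroup.topEquiv e
    rw [stab_bot, Finset.card_singleton, h1, Subgroup.card_top]
    ring
  have hbr1 : lnum (Subgroup.normalizer (P : Set G)) e =
      lnum (Subgroup.normalizer (P : Set G)) (br P e) :=
    H96.lnum_br hF hNls hPp Subgroup.le_normalizer le_rfl he.1
  have hf1 : ∀ V ∈ C, (-1 : ℤ) ^ (({⊥, V} : Finset (Subgroup G)).card + 1) *
      ((Nat.card (stab ({⊥, V} : Finset (Subgroup G))) : ℤ) *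
        (lnum (stab ({⊥, V} : Finset (Subgroup G))) e : ℤ)) =
      -((Nat.card (Subgroup.normalizer (P : Set G)) : ℤ) *
        (lnum (Subgroup.normalizer (P : Set G)) (br P e) : ℤ)) := by
    intro V hV
    rw [hC] at hV
    obtain ⟨g, -, rfl⟩ := Finset.mem_image.1 hV
    have h1 : ({⊥, conjS g P} : Finset (Subgroup G)).card = 2 :=
      Finset.card_pair (conjS_ne_bot hP0 g).symm
    have h3 : lnum (conjS g (Subgroup.normalizer (P : Set G))) e =
        lnum (Subgroup.normalizer (P : Set G)) e := by
      rw [conjS, H75.lnum_map _ (MulAut.conj g).injective]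
      have h4 : (fun x => e ((MulAut.conj g).toMonoidHom x)) = e := by
        funext x
        exact he.1 x g
      rw [h4]
    rw [h1, stab_pair, norm_conjS, card_conjS, h3, hbr1]
    ring
  have hcard : (C.card : ℤ) * (Nat.card (Subgroup.normalizer (P : Set G)) : ℤ) =
      (Nat.card G : ℤ) := by
    have h1 : Fintype.card G = ∑ V ∈ C, (Finset.univ.filter fun g : G => conjS g P = V).card := by
      rw [← Finset.card_univ]
      exact Finset.card_eq_sum_card_fiberwise
        (fun g _ => by
          rw [hC]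
          exact Finset.mem_coe.2 (Finset.mem_image_of_mem _ (Finset.mem_univ g)))
    have h2 : ∀ V ∈ C, (Finset.univ.filter fun g : G => conjS g P = V).card =
        Nat.card (Subgroup.normalizer (P : Set G)) := by
      intro V hV
      rw [hC] at hV
      obtain ⟨k, -, rfl⟩ := Finset.mem_image.1 hV
      rw [← card_fib P k, Nat.card_eq_fintype_card, Fintype.card_subtype]
    rw [Finset.sum_congr rfl h2, Finset.sum_const, smul_eq_mul] at h1
    rw [Nat.card_eq_fintype_card (α := G), h1]
    push_cast
    ring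
  rw [Finset.sum_insert, hf0, Finset.sum_image, Finset.sum_congr rfl hf1,
    Finset.sum_const, nsmul_eq_mul]
  · have h5 : (lnum (Subgroup.normalizer (P : Set G)) (br P e) : ℤ) =
        ({θ : Subgroup.normalizer (P : Set G) → F |
          θ ∈ IBr F (Subgroup.normalizer (P : Set G)) ∧
          actF (fun t : Subgroup.normalizer (P : Set G) => br P e t) θ = θ}.ncard : ℤ) := rfl
    rw [← h5]
    linear_combination (-(lnum (Subgroup.normalizer (P : Set G)) (br P e) : ℤ)) * hcard
  · intro V hV W hW h
    have hV' : V ∈ C := hV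
    rw [hC] at hV'
    obtain ⟨g, -, hg⟩ := Finset.mem_image.1 hV'
    have h1 : V ∈ ({⊥, W} : Finset (Subgroup G)) := by
      have h2 : V ∈ ({⊥, V} : Finset (Subgroup G)) :=
        Finset.mem_insert_of_mem (Finset.mem_singleton_self _)
      have h3 : ({⊥, V} : Finset (Subgroup G)) = {⊥, W} := h
      rwa [h3] at h2
    rcases Finset.mem_insert.1 h1 with h2 | h2
    · exact absurd (hg.trans h2) (conjS_ne_bot hP0 g)
    · exact Finset.mem_singleton.1 h2
  · intro h
    obtain ⟨V, hV, h1⟩ := Finset.mem_image.1 h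
    rw [hC] at hV
    obtain ⟨g, -, hg⟩ := Finset.mem_image.1 hV
    have h2 : V ∈ ({⊥} : Finset (Subgroup G)) := by
      rw [← h1]
      exact Finset.mem_insert_of_mem (Finset.mem_singleton_self _)
    exact absurd (hg.trans (Finset.mem_singleton.1 h2)) (conjS_ne_bot hP0 g)

end Pool.Agent.PP.D1.H90
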